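import Mathlib
import Pool.Agent.Helper7.UniformBalls
import Pool.Agent.Helper7.UniformBallsFam

open Pool.Agent.Helper7.UBalls

/-- For every `r ≥ 2` there is a graph `G` on `n = 6r + 6` vertices that has uniform `k`-balls of
radius `r` with `k = 6r - 1`, so that `n/2 < k < n`, and whose diameter is at most `r + 2`, but
`G` is not vertex transitive. -/
theorem Pool.Agent.Results.MP_409260_co.Counterexample.result (r : ℕ) (hr : 2 ≤ r) :
    ∃ (V : Type) (_ : Fintype V) (G : SimpleGraph V),
      Fintype.card V = 6 * r + 6 ∧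
      Fintype.card V < 2 * (6 * r - 1) ∧ 6 * r - 1 < Fintype.card V ∧
      HasUniformBallsOfRadius G r (6 * r - 1) ∧
      (∀ u v, ∃ p : G.Walk u v, p.length ≤ r + 2) ∧
      ¬ VertexTransitive G := by
  have hcard : Fintype.card (ZMod (2 * r + 2) × Fin 3) = 6 * r + 6 := by
    rw [Fintype.card_prod, ZMod.card, Fintype.card_fin]; ring
  exact ⟨ZMod (2 * r + 2) × Fin 3, inferInstance, TGm (2 * r + 2), hcard, by rw [hcard]; omega,
    by rw [hcard]; omega, uniform_m r (by omega), diam_m r, not_transitive_m (by omega)⟩
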